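import Pool.Agent.Q122.EX.WINY
import Pool.Agent.Q122.MB.MBF

set_option autoImplicit false

/-! Project EX: the final theorem. -/

namespace Pool.Agent.Q122.EX

open Finset Filter Topology MeasureTheory Pool.Agent.H306R2.RZ Pool.Agent.H306R2.RG
open Pool.Agent.Q122.FM Pool.Agent.Q122.MB

noncomputable section

theorem sq6 {a b : ℝ} (h : a / 32 ≤ b) (hb : 0 ≤ b) :
    Real.sqrt a / 6 ≤ Real.sqrt b := by
  apply Real.le_sqrt_of_sq_le
  by_cases ha : 0 ≤ a
  · rw [div_pow, Real.sq_sqrt ha]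
    have : a / 6 ^ 2 ≤ a / 32 := by
      apply div_le_div_of_nonneg_left ha (by norm_num) (by norm_num)
    linarith
  · rw [Real.sqrt_eq_zero_of_nonpos (le_of_lt (not_le.1 ha))]
    simpa using hb

theorem ev_H (δ : ℝ) (hδ : 0 < δ) : ∀ᶠ H : ℕ in atTop, 16 ≤ H ∧
    16 * (H : ℝ) ^ (1 / 32 : ℝ) ≤ H ∧ 2 ≤ (H : ℝ) ^ (1 / 32 : ℝ) ∧
    8 ≤ (H : ℝ) ^ (δ / 64) ∧ 64 ≤ Real.log H := by
  filter_upwards [ev_pow 16 (show (0 : ℝ) < 31 / 32 by norm_num),
    ev_pow 2 (show (0 : ℝ) < 1 / 32 by norm_num),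
    ev_pow 8 (show (0 : ℝ) < δ / 64 by positivity), ev_log 64,
    eventually_ge_atTop 16] with H a1 a2 a3 a4 a5
  refine ⟨a5, ?_, a2, a3, a4⟩
  have hH0 : (0 : ℝ) < H := by
    have : 0 < H := by omega
    exact_mod_cast this
  calc 16 * (H : ℝ) ^ (1 / 32 : ℝ) ≤ (H : ℝ) ^ (31 / 32 : ℝ) * (H : ℝ) ^ (1 / 32 : ℝ) :=
        mul_le_mul_of_nonneg_right a1 (by positivity)
    _ = H := by
        rw [← Real.rpow_add hH0]
        norm_num

open Classical in
theorem t_EX (winx : S_WINX) (fdd : S_FDD) : S_EX := by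
  obtain ⟨c, δ, A0, Y0, hc, hδ, hY03, hw⟩ := winx
  obtain ⟨H0, hH0⟩ := eventually_atTop.1 (ev_H δ hδ)
  have hev : ∀ᶠ X : ℕ in atTop, 2 * (1 + Real.log (X : ℝ)) ^ A0 ≤ (X : ℝ) ^ (1 / 16 : ℝ) :=
    evlog 2 A0 (by norm_num)
  obtain ⟨X1, hX1⟩ := eventually_atTop.1 (hev.and ((ev_log (max 16 H0)).and
    ((ev_pow 2 (show (0 : ℝ) < 1 / 32 by norm_num)).and (eventually_ge_atTop 3))))
  refine ⟨c / 6, δ / 64, A0 + 1, max Y0 X1, by positivity, by positivity, ?_⟩
  intro ε hε X H hX hH hHX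
  obtain ⟨e1, e2, e3, e4⟩ := hX1 X ((le_max_right _ _).trans hX)
  have hX3 : (3 : ℝ) ≤ X := by exact_mod_cast e4
  have hX0 : (0 : ℝ) < X := by linarith
  have hX1' : (1 : ℝ) ≤ X := by linarith
  have l16 : 16 ≤ Real.log X := (le_max_left _ _).trans e2
  have lH0 : (H0 : ℝ) ≤ Real.log X := (le_max_right _ _).trans e2
  have hHl : Real.log X ≤ H := by
    calc Real.log X = Real.log X ^ 1 := (pow_one _).symm
      _ ≤ Real.log X ^ (A0 + 1) := pow_le_pow_right₀ (by linarith) (by omega)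
      _ ≤ H := hH
  obtain ⟨f1, f2, f3, f4, f5⟩ := hH0 H (by exact_mod_cast lH0.trans hHl)
  have hHp : (0 : ℝ) < H := by
    have : 0 < H := by omega
    exact_mod_cast this
  have hH1 : (1 : ℝ) ≤ H := by
    have : 1 ≤ H := by omega
    exact_mod_cast this
  have hHXr : (H : ℝ) ≤ X := by exact_mod_cast hHX
  set h1 : ℕ := H / 8 with hh1
  set h2 : ℕ := ⌊(X : ℝ) ^ (1 / 16 : ℝ)⌋₊ with hh2
  set h : ℕ := min h1 h2 with hh
  -- sizes
  have s1 : (H : ℝ) / 16 ≤ h1 := by
    have : H ≤ 16 * h1 := by omega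
    have h3 : (H : ℝ) ≤ 16 * h1 := by exact_mod_cast this
    linarith
  have hX16 : (2 : ℝ) ≤ (X : ℝ) ^ (1 / 16 : ℝ) :=
    e3.trans (Real.rpow_le_rpow_of_exponent_le hX1' (by norm_num))
  obtain ⟨g1, g2, g3⟩ := floor_facts hX16
  have s2 : (X : ℝ) ^ (1 / 16 : ℝ) / 2 ≤ h2 := g3
  have hlow : (H : ℝ) ^ (1 / 32 : ℝ) ≤ h := by
    rw [hh, Nat.cast_min]
    apply le_min
    · linarith
    · refine le_trans ?_ s2
      rw [le_div_iff₀ (by norm_num)]
      calc (H : ℝ) ^ (1 / 32 : ℝ) * 2 ≤ (X : ℝ) ^ (1 / 32 : ℝ) * (X : ℝ) ^ (1 / 32 : ℝ) := by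
            apply mul_le_mul _ e3 (by norm_num) (by positivity)
            exact Real.rpow_le_rpow hHp.le hHXr (by norm_num)
        _ = (X : ℝ) ^ (1 / 16 : ℝ) := by
            rw [← Real.rpow_add hX0]
            norm_num
  have hh2' : (2 : ℝ) ≤ h := f3.trans hlow
  have hlo : Real.log X ^ A0 ≤ h := by
    rw [hh, Nat.cast_min]
    apply le_min
    · refine le_trans ?_ s1
      rw [le_div_iff₀ (by norm_num)]
      calc Real.log X ^ A0 * 16 ≤ Real.log X ^ A0 * Real.log X :=
            mul_le_mul_of_nonneg_left l16 (by positivity)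
        _ = Real.log X ^ (A0 + 1) := (pow_succ _ _).symm
        _ ≤ H := hH
    · refine le_trans ?_ s2
      rw [le_div_iff₀ (by norm_num)]
      have h3 : Real.log X ^ A0 ≤ (1 + Real.log (X : ℝ)) ^ A0 :=
        pow_le_pow_left₀ (by linarith) (by linarith) _
      linarith
  have hhi : (h : ℝ) ≤ (X : ℝ) ^ (1 / 16 : ℝ) := by
    refine le_trans ?_ g2
    exact_mod_cast min_le_right _ _
  have hcount := hw ε hε X h ((le_max_left _ _).trans hX) hlo hhi
  -- comparison of the bounds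
  have hhH : h ≤ H := by
    have : h ≤ h1 := min_le_left _ _
    omega
  have hlh : Real.log H / 32 ≤ Real.log h := by
    have := Real.log_le_log (by positivity) hlow
    rw [Real.log_rpow hHp] at this
    linarith
  have l1 : 1 < Real.log h := by linarith
  have l0 : 0 < Real.log (Real.log h) := Real.log_pos l1
  have hhH' : Real.log h ≤ Real.log H :=
    Real.log_le_log (by linarith) (by exact_mod_cast hhH)
  have l2 : Real.log (Real.log h) ≤ Real.log (Real.log H) := Real.log_le_log (by linarith) hhH'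
  have n3 : Real.log H / Real.log (Real.log H) / 32 ≤ Real.log h / Real.log (Real.log h) := by
    have a1 : Real.log H / Real.log (Real.log H) ≤ Real.log H / Real.log (Real.log h) :=
      div_le_div_of_nonneg_left (by linarith) l0 l2
    calc Real.log H / Real.log (Real.log H) / 32 ≤ Real.log H / Real.log (Real.log h) / 32 := by
          linarith
      _ = Real.log H / 32 / Real.log (Real.log h) := by ring
      _ ≤ _ := div_le_div_of_nonneg_right hlh l0.le
  have n4 := sq6 n3 (div_nonneg (by linarith) l0.le)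
  set V : ℝ := c * Real.log X * Real.exp (c * Real.sqrt (Real.log h / Real.log (Real.log h)))
    with hV
  set U : ℝ := c / 6 * Real.log X *
    Real.exp (c / 6 * Real.sqrt (Real.log H / Real.log (Real.log H))) with hU
  have hUV : U ≤ V := by
    rw [hU, hV]
    apply mul_le_mul _ _ (Real.exp_pos _).le (by positivity)
    · apply mul_le_mul_of_nonneg_right _ (by linarith)
      linarith
    · apply Real.exp_le_exp.2
      calc c / 6 * Real.sqrt (Real.log H / Real.log (Real.log H)) =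
          c * (Real.sqrt (Real.log H / Real.log (Real.log H)) / 6) := by ring
        _ ≤ _ := mul_le_mul_of_nonneg_left n4 hc.le
  -- the map x ↦ x / 8
  set Bd := (range X).filter (fun y => ∀ d ∈ wi y h, LLg (F8 ε) d (1 / 2) < V) with hBd
  have hmap : ∀ x ∈ (Icc 1 X).filter (fun x => ∀ n ∈ Ioc x (x + H), IsFund (ε * n) →
      LHalf (ε * n) < U), x / 8 ∈ Bd := by
    intro x hx
    rw [mem_filter, mem_Icc] at hx
    rw [hBd, mem_filter, mem_range]
    refine ⟨by omega, ?_⟩
    intro d hd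
    simp only [wi, mem_filter, mem_Ioc] at hd
    have hdo : Odd d := Nat.odd_iff.2 (by omega)
    have h8 : 8 * h ≤ H := by
      have : h ≤ h1 := min_le_left _ _
      omega
    have hlt := hx.2 (8 * d) (by rw [mem_Ioc]; omega) (isFund8 hε hdo hd.2.2)
    rw [LH_eq fdd hε hdo hd.2.2] at hlt
    exact hlt.trans_le hUV
  have hcard : (((Icc 1 X).filter (fun x => ∀ n ∈ Ioc x (x + H), IsFund (ε * n) →
      LHalf (ε * n) < U)).card : ℝ) ≤ 8 * Bd.card := by
    have := Finset.card_le_mul_card_image_of_maps_to (s := (Icc 1 X).filter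
      (fun x => ∀ n ∈ Ioc x (x + H), IsFund (ε * n) → LHalf (ε * n) < U)) (t := Bd)
      (f := fun x => x / 8) hmap 8 (by
        intro b _
        calc _ ≤ (Ico (8 * b) (8 * b + 8)).card := by
              apply card_le_card
              intro x hx
              rw [mem_filter] at hx
              rw [mem_Ico]
              have := hx.2
              omega
          _ = 8 := by rw [Nat.card_Ico]; omega)
    exact_mod_cast this
  refine hcard.trans ?_
  calc 8 * (Bd.card : ℝ) ≤ 8 * (X / (h : ℝ) ^ δ) := by linarith [hcount]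
    _ ≤ 8 * (X / (H : ℝ) ^ (δ / 32)) := by
        apply mul_le_mul_of_nonneg_left _ (by norm_num)
        apply div_le_div_of_nonneg_left hX0.le (by positivity)
        calc (H : ℝ) ^ (δ / 32) = ((H : ℝ) ^ (1 / 32 : ℝ)) ^ δ := by
              rw [← Real.rpow_mul hHp.le]
              congr 1
              ring
          _ ≤ (h : ℝ) ^ δ := Real.rpow_le_rpow (by positivity) hlow hδ.le
    _ ≤ (H : ℝ) ^ (δ / 64) * (X / (H : ℝ) ^ (δ / 32)) :=
        mul_le_mul_of_nonneg_right f4 (by positivity)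
    _ = X / (H : ℝ) ^ (δ / 64) := by
        have : (H : ℝ) ^ (δ / 32) = (H : ℝ) ^ (δ / 64) * (H : ℝ) ^ (δ / 64) := by
          rw [← Real.rpow_add hHp]
          congr 1
          ring
        rw [this]
        field_simp

end

end Pool.Agent.Q122.EX
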