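import Pool.Agent.Q122.EX.Stm

set_option autoImplicit false

/-! Project EX: the twisted first moment in almost all windows, general twist. -/

namespace Pool.Agent.Q122.EX

open Finset Filter Topology MeasureTheory Pool.Agent.H306R2.RZ Pool.Agent.H306R2.RG
open Pool.Agent.Q122.FM Pool.Agent.Q122.MB

noncomputable section

theorem RB_abs (e : ℤ) {β : ℕ → ℝ} (hβ : ∀ b, 0 ≤ β b) {B : ℕ}
    (hs : ∑ b ∈ Icc 1 B, β b ≤ B) (d : ℕ) : |RB e β B d| ≤ (B : ℝ) := by
  unfold RB
  refine (abs_sum_le_sum_abs _ _).trans ?_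
  calc _ ≤ ∑ b ∈ (Icc 1 B).filter (fun b => Odd b), β b := by
        apply sum_le_sum
        intro b _
        rw [abs_mul, abs_of_nonneg (hβ b)]
        apply mul_le_of_le_one_right (hβ b)
        unfold js
        rcases jacobiSym.trichotomy (e * (d : ℤ)) b with h | h | h <;> rw [h] <;> simp
    _ ≤ ∑ b ∈ Icc 1 B, β b :=
        sum_le_sum_of_subset_of_nonneg (filter_subset _ _) fun b _ _ => hβ b
    _ ≤ _ := hs

theorem t_S1G (spl : S_SPL) (nsb : S_NSB) (rep : S_REP) (frz : S_FRZ) : S_S1G := by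
  obtain ⟨Cn, hCn, nsb⟩ := nsb
  obtain ⟨Cf, hCf, frz⟩ := frz
  refine ⟨8 * Cf + Cn, by positivity, ?_⟩
  intro ε hε β hβ B hB1 hBs Y h N1 hY hh hhY hBY P LB hPr hLB
  set e : ℤ := 2 * ε with he
  have he' : e = 1 ∨ e = -1 ∨ e = 2 ∨ e = -2 := by
    rcases hε with rfl | rfl <;> simp [he]
  have ha : aS ε = 0 ∨ aS ε = 1 := by
    unfold aS; split_ifs <;> simp
  have hfam : Fam (F8 ε) := ⟨ε, hε, Or.inl rfl⟩
  have hpar : par (F8 ε) = ⟨e, 8, aS ε, 0⟩ := rfl
  have hok : (⟨e, 8, aS ε, 0⟩ : Par).ok := by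
    rw [← hpar]; exact par_ok hfam
  set p : Par := ⟨e, 8, aS ε, 0⟩ with hp
  set g0 := gm (1 / 2 + (aS ε : ℝ)) with hg0
  set zy : ℕ → ℝ := fun y => 1 / (8 * ((y : ℝ) + 1)) with hzy
  have hzy0 : ∀ y, 0 < zy y := fun y => by simp only [hzy]; positivity
  have hzy1 : ∀ y, zy y ≤ 1 := by
    intro y
    simp only [hzy]
    rw [div_le_one (by positivity)]
    have : (0 : ℝ) ≤ y := by positivity
    linarith
  have hmem : ∀ y, ∀ d ∈ wi y h, Odd d ∧ Squarefree d ∧ y + 1 ≤ d ∧ d ≤ y + h := by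
    intro y d hd
    simp only [wi, mem_filter, mem_Ioc] at hd
    exact ⟨Nat.odd_iff.2 (by omega), hd.2.2, by omega, hd.1.2⟩
  set SN : ℕ → ℕ → ℝ := fun N y => ∑ d ∈ wi y h, RB e β B d *
    (EN p N d (1 / (8 * (d : ℝ))) + ES p N d (1 / (8 * (d : ℝ)))) with hSN
  have hcardw : ∀ y, ((wi y h).card : ℝ) ≤ h := by
    intro y
    have : (wi y h).card ≤ h := by
      refine (card_filter_le _ _).trans ?_
      rw [Nat.card_Ioc]; omega
    exact_mod_cast this
  -- for every N
  have key : ∀ N, N1 ≤ N → 1 ≤ N → ∑ y ∈ P, max 0 (LB y -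
      (8 * Cf + Cn) * (B : ℝ) * h ^ 2 * ((y : ℝ) + 1) ^ (-(3 / 4) : ℝ) - SN N y) ≤
      Cn * ((B : ℝ) ^ 4 * Y * Real.log Y ^ 2 * (h : ℝ) ^ (5 / 6 : ℝ)) := by
    intro N hN hN1
    have h1 : ∀ y ∈ P, max 0 (LB y -
        (8 * Cf + Cn) * (B : ℝ) * h ^ 2 * ((y : ℝ) + 1) ^ (-(3 / 4) : ℝ) - SN N y) ≤
        |∑ d ∈ wi y h, EBN e (aS ε) β B N d (zy y)| := by
      intro y hy
      apply max_le (abs_nonneg _)
      -- split
      have e1 : SN N y = ∑ d ∈ wi y h, RB e β B d *
          ((EN p N d (1 / (8 * (d : ℝ))) + ES p N d (1 / (8 * (d : ℝ)))) -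
            (EN p N d (zy y) + ES p N d (zy y))) +
          (∑ d ∈ wi y h, EBN e (aS ε) β B N d (zy y) +
            ∑ d ∈ wi y h, EBS e (aS ε) β B N d (zy y)) := by
        simp only [hSN]
        rw [← sum_add_distrib, ← sum_add_distrib]
        apply sum_congr rfl
        intro d _
        rw [spl e (aS ε) β B N d (zy y) hN1]
        ring
      have e2 : -(8 * Cf * (B : ℝ) * h ^ 2 * ((y : ℝ) + 1) ^ (-(3 / 4) : ℝ)) ≤
          ∑ d ∈ wi y h, RB e β B d *
          ((EN p N d (1 / (8 * (d : ℝ))) + ES p N d (1 / (8 * (d : ℝ)))) -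
            (EN p N d (zy y) + ES p N d (zy y))) := by
        apply neg_le_of_abs_le
        refine (abs_sum_le_sum_abs _ _).trans ?_
        calc _ ≤ ∑ d ∈ wi y h, (B : ℝ) * (Cf * (8 * h * ((y : ℝ) + 1) ^ (-(3 / 4) : ℝ))) := by
              apply sum_le_sum
              intro d hd
              obtain ⟨_, _, hyd, hdy⟩ := hmem y d hd
              have hyd' : (y : ℝ) + 1 ≤ d := by exact_mod_cast hyd
              have hdy' : (d : ℝ) ≤ y + h := by exact_mod_cast hdy
              have hy0 : (0 : ℝ) ≤ y := by positivity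
              have hd0 : (0 : ℝ) < d := by linarith
              rw [abs_mul]
              apply mul_le_mul (RB_abs e hβ hBs d) _ (abs_nonneg _) (by positivity)
              rw [abs_sub_comm]
              refine (frz p hok N d (zy y) (1 / (8 * (d : ℝ))) (by positivity) ?_
                (hzy1 y)).1.trans ?_
              · simp only [hzy]
                apply one_div_le_one_div_of_le (by positivity)
                linarith
              · apply mul_le_mul_of_nonneg_left _ hCf.le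
                simp only [hzy]
                rw [z_pow (by positivity), z_pow (by positivity)]
                refine (frz_step (by positivity) (by linarith)).trans ?_
                have f1 : (8 * ((y : ℝ) + 1)) ^ (-(3 / 4) : ℝ) ≤
                    ((y : ℝ) + 1) ^ (-(3 / 4) : ℝ) := by
                  apply Real.rpow_le_rpow_of_nonpos (by positivity) (by linarith) (by norm_num)
                have f2 : 8 * (d : ℝ) - 8 * ((y : ℝ) + 1) ≤ 8 * h := by linarith
                exact mul_le_mul f2 f1 (by positivity) (by positivity)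
          _ = (wi y h).card * ((B : ℝ) * (Cf * (8 * h * ((y : ℝ) + 1) ^ (-(3 / 4) : ℝ)))) := by
              rw [sum_const, nsmul_eq_mul]
          _ ≤ h * ((B : ℝ) * (Cf * (8 * h * ((y : ℝ) + 1) ^ (-(3 / 4) : ℝ)))) :=
              mul_le_mul_of_nonneg_right (hcardw y) (by positivity)
          _ = _ := by ring
      have e3 : LB y ≤ ∑ d ∈ wi y h, EBS e (aS ε) β B N d (zy y) := hLB N hN y hy
      have e4 := neg_abs_le (∑ d ∈ wi y h, EBN e (aS ε) β B N d (zy y))
      have e5 : 0 ≤ Cn * (B : ℝ) * h ^ 2 * ((y : ℝ) + 1) ^ (-(3 / 4) : ℝ) := by positivity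
      have e6 : (8 * Cf + Cn) * (B : ℝ) * h ^ 2 * ((y : ℝ) + 1) ^ (-(3 / 4) : ℝ) =
          8 * Cf * (B : ℝ) * h ^ 2 * ((y : ℝ) + 1) ^ (-(3 / 4) : ℝ) +
          Cn * (B : ℝ) * h ^ 2 * ((y : ℝ) + 1) ^ (-(3 / 4) : ℝ) := by ring
      rw [e1, e6]
      linarith
    refine (sum_le_sum h1).trans ?_
    refine le_trans ?_ (nsb (aS ε) ha e he' β hβ B hB1 hBs 1
      (by norm_num) (by decide) Y h N hY hh hhY hBY)
    apply sum_le_sum_of_subset_of_nonneg hPr
    intro y _ _
    exact abs_nonneg _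
  -- the limit
  have hlim : Tendsto (fun N => ∑ y ∈ P, max 0 (LB y -
      (8 * Cf + Cn) * (B : ℝ) * h ^ 2 * ((y : ℝ) + 1) ^ (-(3 / 4) : ℝ) - SN N y)) atTop
      (𝓝 (∑ y ∈ P, max 0 (LB y -
      (8 * Cf + Cn) * (B : ℝ) * h ^ 2 * ((y : ℝ) + 1) ^ (-(3 / 4) : ℝ) -
        g0 / 2 * ∑ d ∈ wi y h, LLg (F8 ε) d (1 / 2) * RB e β B d))) := by
    apply tendsto_finsetSum
    intro y _
    apply Tendsto.max tendsto_const_nhds
    apply Tendsto.sub tendsto_const_nhds
    have e1 : g0 / 2 * ∑ d ∈ wi y h, LLg (F8 ε) d (1 / 2) * RB e β B d =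
        ∑ d ∈ wi y h, RB e β B d * (g0 / 2 * LLg (F8 ε) d (1 / 2)) := by
      rw [mul_sum]
      apply sum_congr rfl
      intro d _
      ring
    rw [e1]
    apply tendsto_finsetSum
    intro d hd
    obtain ⟨hdo, hds, _, _⟩ := hmem y d hd
    have := rep (F8 ε) hfam d hdo hds
    rw [hpar] at this
    exact this.const_mul (RB e β B d)
  have h2 := le_of_tendsto hlim (eventually_atTop.2 ⟨max N1 1, fun N hN =>
    key N ((le_max_left _ _).trans hN) ((le_max_right _ _).trans hN)⟩)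
  refine h2.trans ?_
  apply mul_le_mul_of_nonneg_right _ (by positivity)
  linarith

end

end Pool.Agent.Q122.EX
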