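import Pool.Agent.Q122.MB.All
import Pool.Agent.Q122.EX.S1G
import Pool.Agent.Q122.EX.FIN
import Pool.Agent.Q257.EX.RSQ
import Pool.Agent.Q257.EX.EBX
import Pool.Agent.Q257.EX.GDX
import Pool.Agent.Q257.EX.MER
import Pool.Agent.Q238.EXT.RKN
import Pool.Agent.Q238.EXT.UPX
import Pool.Agent.Q238.EXT.GLX
import Pool.Agent.Q238.EXT.PAR

set_option autoImplicit false

/-! Project EX: all the statements, without hypotheses. -/

namespace Pool.Agent.Q122.EX

open Pool.Agent.Q122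

theorem rsq : S_RSQ := Pool.Agent.Q257.EX.t_RSQ
theorem ebx : S_EBX := Pool.Agent.Q257.EX.t_EBX MB.lbm
theorem gdx : S_GDX := Pool.Agent.Q257.EX.t_GDX
theorem mer : S_MER := Pool.Agent.Q257.EX.t_MER
theorem rkn : S_RKN := Pool.Agent.Q238.EXT.t_RKN
theorem upx : S_UPX := Pool.Agent.Q238.EXT.t_UPX rsq MB.ch
theorem glx : S_GLX := Pool.Agent.Q238.EXT.t_GLX gdx MB.gd FM.wa1
theorem par : S_PAR := Pool.Agent.Q238.EXT.t_PAR mer
theorem s1g : S_S1G := t_S1G MB.spl MB.nsb FM.rep FM.frz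
theorem winx : S_WINX := t_WINX s1g rsq ebx rkn upx glx par
theorem ex : S_EX := t_EX winx FM.fdd

end Pool.Agent.Q122.EX
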