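import Pool.Agent.Q122.MB.S1

set_option autoImplicit false

/-!
# Project EX (helper122): extreme values of `L(1/2, χ_d)` in almost all short windows

Continues project MB (`Pool.Agent.Q122.MB.Stm`, all statements proved in `Pool.Agent.Q122.MB.All`).
-/

namespace Pool.Agent.Q122.EX

open Finset Filter Topology MeasureTheory Pool.Agent.H306R2.RZ Pool.Agent.H306R2.RG
open Pool.Agent.Q122.FM Pool.Agent.Q122.MB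

noncomputable section

/-- the primes of the resonator: `P < p ≤ P^K` -/
def SP (P K : ℕ) : Finset ℕ := (Ioc P (P ^ K)).filter Nat.Prime

/-- coefficients of the resonator: `r(n) = ∏_{p ∣ n} A/√p` for squarefree `n` composed of primes
of `SP P K`, zero otherwise -/
def rr (A : ℝ) (P K n : ℕ) : ℝ :=
  if Squarefree n ∧ n.primeFactors ⊆ SP P K then ∏ p ∈ n.primeFactors, A / Real.sqrt p else 0

/-- the resonator `∑_{n ≤ N, odd} r(n) (e d/n)` -/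
def RS (A : ℝ) (P K : ℕ) (e : ℤ) (N d : ℕ) : ℝ :=
  ∑ n ∈ (Icc 1 N).filter (fun n => Odd n), rr A P K n * js (e * (d : ℤ)) n

/-- coefficients of the square of the resonator -/
def b2 (A : ℝ) (P K N m : ℕ) : ℝ :=
  ∑ x ∈ m.divisorsAntidiagonal.filter (fun x => x.1 ≤ N ∧ x.2 ≤ N), rr A P K x.1 * rr A P K x.2

/-- `b^ω(n)/n` for squarefree `n` composed of primes of `SP P K`, zero otherwise -/
def qq (b : ℝ) (P K n : ℕ) : ℝ :=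
  if Squarefree n ∧ n.primeFactors ⊆ SP P K then b ^ n.primeFactors.card / n else 0

/-- RSQ: the square of the resonator -/
def S_RSQ : Prop := ∀ (A : ℝ) (P K N : ℕ), 0 ≤ A → A ^ 2 ≤ P → 2 ≤ P → 1 ≤ N →
  (∀ (e : ℤ) (d : ℕ), RB e (b2 A P K N) (N ^ 2) d = RS A P K e N d ^ 2) ∧
  (∀ m, 0 ≤ b2 A P K N m) ∧
  ∑ m ∈ Icc 1 (N ^ 2), b2 A P K N m ≤ ((N ^ 2 : ℕ) : ℝ)

/-- EBX: lower bound for the part of the squares of the twisted `L`-value -/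
def S_EBX : Prop := ∃ c : ℝ, 0 < c ∧
  ∀ e : ℤ, (e = 1 ∨ e = -1 ∨ e = 2 ∨ e = -2) → ∀ a : ℕ, (a = 0 ∨ a = 1) →
  ∀ (A : ℝ) (P K N0 M N d : ℕ) (z : ℝ), 0 ≤ A → A ^ 2 ≤ P → 2 ≤ P → 1 ≤ N0 → 1 ≤ M →
  N0 * M ^ 2 ≤ N → Odd d → 0 < z → ((N0 * M ^ 2 : ℕ) : ℝ) ^ 2 * z ≤ 1 →
  c * PK 1 d * Real.log M * ∑ n ∈ (Icc 1 N0).filter (fun n => n.Coprime d), qq (A ^ 2 + A) P K n ≤
    EBS e a (b2 A P K N0) (N0 ^ 2) N d z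

/-- RKN: Rankin's trick -/
def S_RKN : Prop := ∀ (b : ℝ) (P K N d : ℕ), 0 ≤ b → 2 ≤ P → 1 ≤ N → 1 ≤ d →
  Real.log P * (Real.log 2 + Real.exp K * b * ∑ p ∈ SP P K, (1 : ℝ) / p) ≤ Real.log N →
  1 / 2 * ∏ p ∈ (SP P K).filter (fun p => ¬ p ∣ d), (1 + b / p) ≤
    ∑ n ∈ (Icc 1 N).filter (fun n => n.Coprime d), qq b P K n

/-- UPX: mean square of the resonator in a window -/
def S_UPX : Prop := ∀ e : ℤ, (e = 1 ∨ e = -1 ∨ e = 2 ∨ e = -2) → ∀ c : ℕ, c < 8 → Odd c →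
  ∀ (A : ℝ) (P K N y h : ℕ), 0 ≤ A → A ^ 2 ≤ P → 2 ≤ P → 1 ≤ N →
  ∑ d ∈ (Ioc y (y + h)).filter (fun d => d % 8 = c), RS A P K e N d ^ 2 ≤
    h * ∏ p ∈ SP P K, (1 + A ^ 2 / p) + 8 * (N : ℝ) ^ 4

/-- GDX: an elementary upper bound in short intervals -/
def S_GDX : Prop := ∀ (S : Finset ℕ) (f : ℕ → ℝ), (∀ p ∈ S, p.Prime ∧ 0 ≤ f p) → ∀ y h : ℕ,
  ∑ d ∈ Ioc y (y + h), ∏ p ∈ S.filter (fun p => p ∣ d), (1 + f p) ≤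
    h * ∏ p ∈ S, (1 + f p / p) + ∏ p ∈ S, (1 + f p)

/-- the lower bound for the resonated sum of the squares parts over a window -/
def GLo (b : ℝ) (P K y h : ℕ) : ℝ :=
  ∑ d ∈ wi y h, PK 1 d * ∏ p ∈ (SP P K).filter (fun p => ¬ p ∣ d), (1 + b / p)

/-- GLX: it is large in almost all windows -/
def S_GLX : Prop := ∃ c C : ℝ, 0 < c ∧ 0 < C ∧ ∀ (Y h P K : ℕ) (b : ℝ), 1 ≤ h → h ≤ Y → 2 ≤ P →
  0 ≤ b → b ≤ P → 3 * b * ∑ p ∈ SP P K, (1 : ℝ) / p ≤ Real.log h →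
  (1 + Real.log (2 * (Y : ℝ))) ^ 3 ≤ h →
  (((range Y).filter (fun y =>
    GLo b P K y h < c * h * ∏ p ∈ SP P K, (1 + b / p))).card : ℝ) ≤ C * Y / Real.sqrt h

/-- MER: Mertens, in the form needed -/
def S_MER : Prop := ∃ K : ℕ, ∃ C : ℝ, 1 ≤ K ∧ 1 ≤ C ∧ ∀ P : ℕ, 3 ≤ P →
  1 ≤ ∑ p ∈ SP P K, (1 : ℝ) / p ∧ ∑ p ∈ SP P K, (1 : ℝ) / p ≤ C

/-- the parameters of the resonator of length `N` -/
structure PR (c : ℝ) (K N P : ℕ) (A : ℝ) : Prop where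
  P3 : 3 ≤ P
  A0 : 0 ≤ A
  AP : A ^ 2 ≤ P
  bP : A ^ 2 + A ≤ P
  rk : Real.log P * (Real.log 2 + Real.exp K * (A ^ 2 + A) * ∑ p ∈ SP P K, (1 : ℝ) / p) ≤
    Real.log N
  gl : 3 * (A ^ 2 + A) * ∑ p ∈ SP P K, (1 : ℝ) / p ≤ Real.log N
  ra : Real.exp (c * Real.sqrt (Real.log N / Real.log (Real.log N))) *
    ∏ p ∈ SP P K, (1 + A ^ 2 / p) ≤ ∏ p ∈ SP P K, (1 + (A ^ 2 + A) / p)

/-- PAR: the choice of the parameters -/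
def S_PAR : Prop := ∃ (c : ℝ) (K N1 : ℕ), 0 < c ∧ 3 ≤ N1 ∧ ∀ N : ℕ, N1 ≤ N →
  ∃ (P : ℕ) (A : ℝ), PR c K N P A

/-- S1G: the twisted first moment in almost all windows, general twist with nonnegative
coefficients -/
def S_S1G : Prop := ∃ C : ℝ, 0 < C ∧ ∀ ε : ℤ, (ε = 1 ∨ ε = -1) → ∀ β : ℕ → ℝ, (∀ b, 0 ≤ β b) →
  ∀ B : ℕ, 1 ≤ B → ∑ b ∈ Icc 1 B, β b ≤ B → ∀ Y h N1 : ℕ, 3 ≤ Y → 1 ≤ h → h ≤ Y → B ≤ Y →
  ∀ (S : Finset ℕ) (LB : ℕ → ℝ), S ⊆ range Y →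
  (∀ N, N1 ≤ N → ∀ y ∈ S, LB y ≤
    ∑ d ∈ wi y h, EBS (2 * ε) (aS ε) β B N d (1 / (8 * ((y : ℝ) + 1)))) →
  ∑ y ∈ S, max 0 (LB y - C * (B : ℝ) * h ^ 2 * ((y : ℝ) + 1) ^ (-(3 / 4) : ℝ) -
      gm (1 / 2 + (aS ε : ℝ)) / 2 * ∑ d ∈ wi y h, LLg (F8 ε) d (1 / 2) * RB (2 * ε) β B d) ≤
    C * ((B : ℝ) ^ 4 * Y * Real.log Y ^ 2 * (h : ℝ) ^ (5 / 6 : ℝ))

/-- WINX: windows of one class -/
def S_WINX : Prop := ∃ (c δ : ℝ) (A0 Y0 : ℕ), 0 < c ∧ 0 < δ ∧ 3 ≤ Y0 ∧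
  ∀ ε : ℤ, (ε = 1 ∨ ε = -1) → ∀ Y h : ℕ, Y0 ≤ Y → Real.log Y ^ A0 ≤ h →
  (h : ℝ) ≤ (Y : ℝ) ^ (1 / 16 : ℝ) →
  (((range Y).filter (fun y => ∀ d ∈ wi y h, LLg (F8 ε) d (1 / 2) <
    c * Real.log Y * Real.exp (c * Real.sqrt (Real.log h / Real.log (Real.log h))))).card : ℝ) ≤
    Y / (h : ℝ) ^ δ

open Classical in
/-- EX: the theorem -/
def S_EX : Prop := ∃ (c δ : ℝ) (A0 X0 : ℕ), 0 < c ∧ 0 < δ ∧
  ∀ ε : ℤ, (ε = 1 ∨ ε = -1) → ∀ X H : ℕ, X0 ≤ X → Real.log X ^ A0 ≤ H → H ≤ X →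
  (((Icc 1 X).filter (fun x => ∀ n ∈ Ioc x (x + H), IsFund (ε * n) → LHalf (ε * n) <
    c * Real.log X * Real.exp (c * Real.sqrt (Real.log H / Real.log (Real.log H))))).card : ℝ) ≤
    X / (H : ℝ) ^ δ

end

end Pool.Agent.Q122.EX
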