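import Pool.Agent.Q122.EX.Stm
import Pool.Agent.Q122.MB.WIN

set_option autoImplicit false

/-! Project EX: windows of one class. -/

namespace Pool.Agent.Q122.EX

open Finset Filter Topology MeasureTheory Pool.Agent.H306R2.RZ Pool.Agent.H306R2.RG
open Pool.Agent.Q122.FM Pool.Agent.Q122.MB

noncomputable section

/-- the truncated difference of `S1G` -/
def XX (ε : ℤ) (C1 g0 lb : ℝ) (β : ℕ → ℝ) (B h y : ℕ) : ℝ :=
  max 0 (lb - C1 * (B : ℝ) * h ^ 2 * ((y : ℝ) + 1) ^ (-(3 / 4) : ℝ) -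
      g0 / 2 * ∑ d ∈ wi y h, LLg (F8 ε) d (1 / 2) * RB (2 * ε) β B d)

/-- the facts about the parameters -/
structure HF (Y h N M : ℕ) (C1 CG c2 cG : ℝ) : Prop where
  Y3 : 3 ≤ Y
  h1 : 1 ≤ h
  hY : h ≤ Y
  N1 : 1 ≤ N
  M1 : 1 ≤ M
  Nh : (N : ℝ) ≤ (h : ℝ) ^ (1 / 96 : ℝ)
  NM : ((N * M ^ 2 : ℕ) : ℝ) ^ 2 ≤ (Y : ℝ) ^ (1 / 2 : ℝ)
  lM : Real.log Y / 32 ≤ Real.log M
  hY16 : (h : ℝ) ≤ (Y : ℝ) ^ (1 / 16 : ℝ)
  lh : Real.log Y ^ 96 ≤ h
  l3 : 3 ≤ Real.log Y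
  e1 : 2 ≤ c2 * cG / 128 * Real.log Y
  e2 : C1 ≤ (Y : ℝ) ^ (1 / 4 : ℝ)
  e3 : 3 ≤ (Y : ℝ) ^ (1 / 4 : ℝ)
  e4 : 3 * CG ≤ (h : ℝ) ^ (1 / 4 : ℝ)
  e5 : 3 * C1 ≤ (h : ℝ) ^ (1 / 24 : ℝ)
  l1N : 1 < Real.log N
  lN : Real.log h / 192 ≤ Real.log N

theorem prod_ge_one {S : Finset ℕ} {f : ℕ → ℝ} (hf : ∀ p ∈ S, 0 ≤ f p) :
    1 ≤ ∏ p ∈ S, (1 + f p) := by
  calc (1 : ℝ) = ∏ p ∈ S, (1 : ℝ) := by simp
    _ ≤ _ := prod_le_prod (fun _ _ => by norm_num) fun p hp => by linarith [hf p hp]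

theorem N4_le {h N : ℕ} (hh : 1 ≤ h) (hN : (N : ℝ) ≤ (h : ℝ) ^ (1 / 96 : ℝ)) :
    (N : ℝ) ^ 4 ≤ h := by
  have hh1 : (1 : ℝ) ≤ h := by exact_mod_cast hh
  calc (N : ℝ) ^ 4 ≤ ((h : ℝ) ^ (1 / 96 : ℝ)) ^ 4 := pow_le_pow_left₀ (by positivity) hN 4
    _ = (h : ℝ) ^ (4 / 96 : ℝ) := by
        rw [← Real.rpow_natCast, ← Real.rpow_mul (by linarith)]
        norm_num
    _ ≤ (h : ℝ) ^ (1 : ℝ) := Real.rpow_le_rpow_of_exponent_le hh1 (by norm_num)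
    _ = h := Real.rpow_one _

theorem B_le {h N : ℕ} (hN : (N : ℝ) ≤ (h : ℝ) ^ (1 / 96 : ℝ)) :
    ((N ^ 2 : ℕ) : ℝ) ≤ (h : ℝ) ^ (1 / 48 : ℝ) := by
  push_cast
  calc (N : ℝ) ^ 2 ≤ ((h : ℝ) ^ (1 / 96 : ℝ)) ^ 2 := pow_le_pow_left₀ (by positivity) hN 2
    _ = _ := by
        rw [← Real.rpow_natCast, ← Real.rpow_mul (by positivity)]
        norm_num

/-- the freezing term -/
theorem freeze {Y h N M : ℕ} {C1 CG c2 cG : ℝ} (hC1 : 0 < C1) (hf : HF Y h N M C1 CG c2 cG)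
    {y : ℕ} (hy : (Y : ℝ) < ((y : ℝ) + 1) ^ 2) :
    C1 * ((N ^ 2 : ℕ) : ℝ) * h ^ 2 * ((y : ℝ) + 1) ^ (-(3 / 4) : ℝ) ≤ h := by
  have hY3' : (3 : ℝ) ≤ Y := by exact_mod_cast hf.Y3
  have hY0 : (0 : ℝ) < Y := by linarith
  have hY1 : (1 : ℝ) ≤ Y := by linarith
  have hh0 : (0 : ℝ) < h := by exact_mod_cast hf.h1
  have hh1 : (1 : ℝ) ≤ h := by exact_mod_cast hf.h1
  have hyhalf : (Y : ℝ) ^ (1 / 2 : ℝ) ≤ (y : ℝ) + 1 := by
    calc (Y : ℝ) ^ (1 / 2 : ℝ) ≤ (((y : ℝ) + 1) ^ 2) ^ (1 / 2 : ℝ) :=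
          Real.rpow_le_rpow hY0.le hy.le (by norm_num)
      _ = (y : ℝ) + 1 := by
          rw [← Real.rpow_natCast, ← Real.rpow_mul (by positivity)]
          norm_num
  have q1 : ((y : ℝ) + 1) ^ (-(3 / 4) : ℝ) ≤ (Y : ℝ) ^ (-(3 / 8) : ℝ) := by
    calc ((y : ℝ) + 1) ^ (-(3 / 4) : ℝ) ≤ ((Y : ℝ) ^ (1 / 2 : ℝ)) ^ (-(3 / 4) : ℝ) :=
          Real.rpow_le_rpow_of_nonpos (by positivity) hyhalf (by norm_num)
      _ = _ := by rw [← Real.rpow_mul hY0.le]; norm_num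
  have hB : ((N ^ 2 : ℕ) : ℝ) ≤ (Y : ℝ) ^ (1 / 48 : ℝ) := by
    refine (B_le hf.Nh).trans ?_
    apply Real.rpow_le_rpow hh0.le _ (by norm_num)
    exact_mod_cast hf.hY
  have q2 : C1 * ((N ^ 2 : ℕ) : ℝ) * h * ((y : ℝ) + 1) ^ (-(3 / 4) : ℝ) ≤ 1 := by
    calc C1 * ((N ^ 2 : ℕ) : ℝ) * h * ((y : ℝ) + 1) ^ (-(3 / 4) : ℝ) ≤
          (Y : ℝ) ^ (1 / 4 : ℝ) * (Y : ℝ) ^ (1 / 48 : ℝ) * (Y : ℝ) ^ (1 / 16 : ℝ) *
            (Y : ℝ) ^ (-(3 / 8) : ℝ) := by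
          apply mul_le_mul _ q1 (by positivity) (by positivity)
          apply mul_le_mul _ hf.hY16 (by positivity) (by positivity)
          exact mul_le_mul hf.e2 hB (by positivity) (by positivity)
      _ = (Y : ℝ) ^ (1 / 4 + 1 / 48 + 1 / 16 + -(3 / 8) : ℝ) := by
          rw [Real.rpow_add hY0, Real.rpow_add hY0, Real.rpow_add hY0]
      _ ≤ 1 := Real.rpow_le_one_of_one_le_of_nonpos hY1 (by norm_num)
  calc C1 * ((N ^ 2 : ℕ) : ℝ) * h ^ 2 * ((y : ℝ) + 1) ^ (-(3 / 4) : ℝ) =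
        h * (C1 * ((N ^ 2 : ℕ) : ℝ) * h * ((y : ℝ) + 1) ^ (-(3 / 4) : ℝ)) := by ring
    _ ≤ h * 1 := mul_le_mul_of_nonneg_left q2 hh0.le
    _ = h := mul_one _

theorem sq14 {a b : ℝ} (h : a / 192 ≤ b) (hb : 0 ≤ b) :
    Real.sqrt a / 14 ≤ Real.sqrt b := by
  apply Real.le_sqrt_of_sq_le
  by_cases ha : 0 ≤ a
  · rw [div_pow, Real.sq_sqrt ha]
    have : a / 14 ^ 2 ≤ a / 192 := by
      apply div_le_div_of_nonneg_left ha (by norm_num) (by norm_num)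
    linarith
  · rw [Real.sqrt_eq_zero_of_nonpos (le_of_lt (not_le.1 ha))]
    simpa using hb

/-- good windows contain large values -/
theorem good {Y h N M K P : ℕ} {C1 CG c2 cG c3 A g0 gM : ℝ} (hC1 : 0 < C1) (hc2 : 0 < c2)
    (hcG : 0 < cG) (hc3 : 0 < c3) (hg0 : 0 < g0) (hgM : g0 ≤ gM)
    (hf : HF Y h N M C1 CG c2 cG) (pr : PR c3 K N P A) {ε : ℤ}
    (hU : ∀ y h : ℕ, ∑ d ∈ (Ioc y (y + h)).filter (fun d => d % 8 = 1),
      RS A P K (2 * ε) N d ^ 2 ≤ h * ∏ p ∈ SP P K, (1 + A ^ 2 / p) + 8 * (N : ℝ) ^ 4)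
    (hR : ∀ d, RB (2 * ε) (b2 A P K N) (N ^ 2) d = RS A P K (2 * ε) N d ^ 2)
    {y : ℕ} (hy : (Y : ℝ) < ((y : ℝ) + 1) ^ 2)
    (hG : cG * h * ∏ p ∈ SP P K, (1 + (A ^ 2 + A) / p) ≤ GLo (A ^ 2 + A) P K y h)
    (hX : XX ε C1 g0 (c2 / 2 * Real.log M * GLo (A ^ 2 + A) P K y h) (b2 A P K N) (N ^ 2) h y ≤ h)
    {V : ℝ} (hV0 : 0 ≤ V) (hL : ∀ d ∈ wi y h, LLg (F8 ε) d (1 / 2) < V) :
    c2 * cG / (576 * gM) * Real.log Y *
      Real.exp (c3 / 14 * Real.sqrt (Real.log h / Real.log (Real.log h))) ≤ V := by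
  have hh0 : (0 : ℝ) < h := by exact_mod_cast hf.h1
  have hgM0 : 0 < gM := by linarith
  have hY1 : (1 : ℝ) ≤ Real.log Y := by linarith [hf.l3]
  set PA := ∏ p ∈ SP P K, (1 + A ^ 2 / (p : ℝ)) with hPA
  set PB := ∏ p ∈ SP P K, (1 + (A ^ 2 + A) / (p : ℝ)) with hPB
  have hA0 := pr.A0
  have hPA1 : 1 ≤ PA := prod_ge_one fun p _ => by positivity
  have hPB1 : 1 ≤ PB := prod_ge_one fun p _ => by positivity
  -- upper bound
  have u1 : ∑ d ∈ wi y h, LLg (F8 ε) d (1 / 2) * RB (2 * ε) (b2 A P K N) (N ^ 2) d ≤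
      V * (9 * h * PA) := by
    calc ∑ d ∈ wi y h, LLg (F8 ε) d (1 / 2) * RB (2 * ε) (b2 A P K N) (N ^ 2) d ≤
          ∑ d ∈ wi y h, V * RS A P K (2 * ε) N d ^ 2 := by
          apply sum_le_sum
          intro d hd
          rw [hR]
          exact mul_le_mul_of_nonneg_right (hL d hd).le (sq_nonneg _)
      _ = V * ∑ d ∈ wi y h, RS A P K (2 * ε) N d ^ 2 := by rw [mul_sum]
      _ ≤ V * (9 * h * PA) := by
          apply mul_le_mul_of_nonneg_left _ hV0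
          calc ∑ d ∈ wi y h, RS A P K (2 * ε) N d ^ 2 ≤
                ∑ d ∈ (Ioc y (y + h)).filter (fun d => d % 8 = 1),
                  RS A P K (2 * ε) N d ^ 2 := by
                apply sum_le_sum_of_subset_of_nonneg
                · intro d hd
                  rw [wi, mem_filter] at hd
                  rw [mem_filter]
                  exact ⟨hd.1, hd.2.1⟩
                · intro d _ _
                  exact sq_nonneg _
            _ ≤ h * PA + 8 * (N : ℝ) ^ 4 := hU y h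
            _ ≤ h * PA + 8 * (h * PA) := by
                have h4 := N4_le hf.h1 hf.Nh
                have : (h : ℝ) ≤ h * PA := le_mul_of_one_le_right hh0.le hPA1
                linarith
            _ = 9 * h * PA := by ring
  have x1 := (le_max_right (0 : ℝ) _).trans hX
  have fr := freeze hC1 hf hy
  -- lower bound
  have l1 : c2 * cG / 64 * Real.log Y * h * PB ≤
      c2 / 2 * Real.log M * GLo (A ^ 2 + A) P K y h := by
    calc c2 * cG / 64 * Real.log Y * h * PB = c2 / 2 * (Real.log Y / 32) * (cG * h * PB) := by ring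
      _ ≤ c2 / 2 * Real.log M * GLo (A ^ 2 + A) P K y h := by
          apply mul_le_mul _ hG (by positivity) _
          · exact mul_le_mul_of_nonneg_left hf.lM (by positivity)
          · apply mul_nonneg (by positivity)
            exact le_trans (by positivity) hf.lM
  have l2 : 2 * (h : ℝ) ≤ c2 * cG / 128 * Real.log Y * h * PB := by
    calc 2 * (h : ℝ) ≤ c2 * cG / 128 * Real.log Y * h :=
          mul_le_mul_of_nonneg_right hf.e1 hh0.le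
      _ ≤ c2 * cG / 128 * Real.log Y * h * PB := le_mul_of_one_le_right (by positivity) hPB1
  have l3 : c2 * cG / 128 * Real.log Y * h * PB ≤ g0 / 2 * (V * (9 * h * PA)) := by
    have x2 : g0 / 2 * ∑ d ∈ wi y h, LLg (F8 ε) d (1 / 2) *
        RB (2 * ε) (b2 A P K N) (N ^ 2) d ≤ g0 / 2 * (V * (9 * h * PA)) :=
      mul_le_mul_of_nonneg_left u1 (by positivity)
    have x3 : c2 * cG / 64 * Real.log Y * h * PB = 2 * (c2 * cG / 128 * Real.log Y * h * PB) := by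
      ring
    linarith
  have l4 : g0 / 2 * (V * (9 * h * PA)) ≤ gM / 2 * (V * (9 * h * PA)) :=
    mul_le_mul_of_nonneg_right (by linarith) (by positivity)
  have ra := pr.ra
  rw [← hPA, ← hPB] at ra
  have l5 : c2 * cG / 128 * Real.log Y * h *
      (Real.exp (c3 * Real.sqrt (Real.log N / Real.log (Real.log N))) * PA) ≤
      gM / 2 * (V * (9 * h * PA)) :=
    (mul_le_mul_of_nonneg_left ra (by positivity)).trans (l3.trans l4)
  have l6 : c2 * cG / (576 * gM) * Real.log Y *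
      Real.exp (c3 * Real.sqrt (Real.log N / Real.log (Real.log N))) ≤ V := by
    have hpos : 0 < 9 * gM / 2 * (h * PA) := by positivity
    apply le_of_mul_le_mul_right _ hpos
    calc c2 * cG / (576 * gM) * Real.log Y *
        Real.exp (c3 * Real.sqrt (Real.log N / Real.log (Real.log N))) *
          (9 * gM / 2 * (h * PA)) = c2 * cG / 128 * Real.log Y * h *
      (Real.exp (c3 * Real.sqrt (Real.log N / Real.log (Real.log N))) * PA) := by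
          field_simp
          ring
      _ ≤ gM / 2 * (V * (9 * h * PA)) := l5
      _ = V * (9 * gM / 2 * (h * PA)) := by ring
  refine le_trans ?_ l6
  apply mul_le_mul_of_nonneg_left _ (by positivity)
  apply Real.exp_le_exp.2
  -- the square roots
  have n1 : 1 < Real.log N := hf.l1N
  have n0 : 0 < Real.log (Real.log N) := Real.log_pos n1
  have hNh : Real.log N ≤ Real.log h := by
    have hN0 : (0 : ℝ) < N := by exact_mod_cast hf.N1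
    apply Real.log_le_log hN0
    have hh1 : (1 : ℝ) ≤ h := by exact_mod_cast hf.h1
    calc (N : ℝ) ≤ (h : ℝ) ^ (1 / 96 : ℝ) := hf.Nh
      _ ≤ (h : ℝ) ^ (1 : ℝ) := Real.rpow_le_rpow_of_exponent_le hh1 (by norm_num)
      _ = h := Real.rpow_one _
  have n2 : Real.log (Real.log N) ≤ Real.log (Real.log h) :=
    Real.log_le_log (by linarith) hNh
  have n3 : Real.log h / Real.log (Real.log h) / 192 ≤ Real.log N / Real.log (Real.log N) := by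
    have a1 : Real.log h / Real.log (Real.log h) ≤ Real.log h / Real.log (Real.log N) :=
      div_le_div_of_nonneg_left (by linarith) n0 n2
    calc Real.log h / Real.log (Real.log h) / 192 ≤ Real.log h / Real.log (Real.log N) / 192 := by
          linarith
      _ = Real.log h / 192 / Real.log (Real.log N) := by ring
      _ ≤ Real.log N / Real.log (Real.log N) := div_le_div_of_nonneg_right hf.lN n0.le
  have n4 := sq14 n3 (div_nonneg (by linarith) n0.le)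
  calc c3 / 14 * Real.sqrt (Real.log h / Real.log (Real.log h)) =
        c3 * (Real.sqrt (Real.log h / Real.log (Real.log h)) / 14) := by ring
    _ ≤ _ := mul_le_mul_of_nonneg_left n4 hc3.le

/-- the total number of exceptions -/
theorem total {Y h N M : ℕ} {C1 CG c2 cG : ℝ} (hC1 : 0 < C1) (hCG : 0 < CG)
    (hf : HF Y h N M C1 CG c2 cG) {a b c : ℝ} (ha : a ≤ (Y : ℝ) ^ (1 / 2 : ℝ))
    (hb : b ≤ CG * Y / Real.sqrt h)
    (hc : c ≤ C1 * (((N ^ 2 : ℕ) : ℝ) ^ 4 * Y * Real.log Y ^ 2 * (h : ℝ) ^ (5 / 6 : ℝ)) / h) :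
    a + b + c ≤ Y / (h : ℝ) ^ (1 / 48 : ℝ) := by
  have hY3' : (3 : ℝ) ≤ Y := by exact_mod_cast hf.Y3
  have hY0 : (0 : ℝ) < Y := by linarith
  have hY1 : (1 : ℝ) ≤ Y := by linarith
  have hh0 : (0 : ℝ) < h := by exact_mod_cast hf.h1
  have hh1 : (1 : ℝ) ≤ h := by exact_mod_cast hf.h1
  have hhY : (h : ℝ) ≤ Y := by exact_mod_cast hf.hY
  have hp : (0 : ℝ) < (h : ℝ) ^ (1 / 48 : ℝ) := by positivity
  have a1 : 3 * (Y : ℝ) ^ (1 / 2 : ℝ) ≤ Y / (h : ℝ) ^ (1 / 48 : ℝ) := by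
    rw [le_div_iff₀ hp]
    calc 3 * (Y : ℝ) ^ (1 / 2 : ℝ) * (h : ℝ) ^ (1 / 48 : ℝ) ≤
          (Y : ℝ) ^ (1 / 4 : ℝ) * (Y : ℝ) ^ (1 / 2 : ℝ) * (Y : ℝ) ^ (1 / 48 : ℝ) := by
          apply mul_le_mul _ (Real.rpow_le_rpow hh0.le hhY (by norm_num)) (by positivity)
            (by positivity)
          exact mul_le_mul_of_nonneg_right hf.e3 (by positivity)
      _ = (Y : ℝ) ^ (1 / 4 + 1 / 2 + 1 / 48 : ℝ) := by
          rw [Real.rpow_add hY0, Real.rpow_add hY0]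
      _ ≤ (Y : ℝ) ^ (1 : ℝ) := Real.rpow_le_rpow_of_exponent_le hY1 (by norm_num)
      _ = Y := Real.rpow_one _
  have b1 : 3 * (CG * Y / Real.sqrt h) ≤ Y / (h : ℝ) ^ (1 / 48 : ℝ) := by
    rw [le_div_iff₀ hp, Real.sqrt_eq_rpow]
    have hs : (0 : ℝ) < (h : ℝ) ^ (1 / 2 : ℝ) := by positivity
    rw [mul_div_assoc', div_mul_eq_mul_div, div_le_iff₀ hs]
    calc 3 * (CG * Y) * (h : ℝ) ^ (1 / 48 : ℝ) = Y * ((3 * CG) * (h : ℝ) ^ (1 / 48 : ℝ)) := by ring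
      _ ≤ Y * ((h : ℝ) ^ (1 / 4 : ℝ) * (h : ℝ) ^ (1 / 48 : ℝ)) := by
          apply mul_le_mul_of_nonneg_left _ hY0.le
          exact mul_le_mul_of_nonneg_right hf.e4 hp.le
      _ = Y * (h : ℝ) ^ (1 / 4 + 1 / 48 : ℝ) := by rw [← Real.rpow_add hh0]
      _ ≤ Y * (h : ℝ) ^ (1 / 2 : ℝ) := by
          apply mul_le_mul_of_nonneg_left _ hY0.le
          exact Real.rpow_le_rpow_of_exponent_le hh1 (by norm_num)
  have c1 : 3 * (C1 * (((N ^ 2 : ℕ) : ℝ) ^ 4 * Y * Real.log Y ^ 2 *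
      (h : ℝ) ^ (5 / 6 : ℝ)) / h) ≤ Y / (h : ℝ) ^ (1 / 48 : ℝ) := by
    rw [le_div_iff₀ hp, mul_div_assoc', div_mul_eq_mul_div, div_le_iff₀ hh0]
    have q1 : ((N ^ 2 : ℕ) : ℝ) ^ 4 ≤ (h : ℝ) ^ (1 / 12 : ℝ) := by
      calc ((N ^ 2 : ℕ) : ℝ) ^ 4 ≤ ((h : ℝ) ^ (1 / 48 : ℝ)) ^ 4 :=
            pow_le_pow_left₀ (by positivity) (B_le hf.Nh) 4
        _ = _ := by
            rw [← Real.rpow_natCast, ← Real.rpow_mul hh0.le]
            norm_num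
    have q2 : Real.log Y ^ 2 ≤ (h : ℝ) ^ (1 / 48 : ℝ) := by
      have hl : 0 ≤ Real.log (Y : ℝ) := by linarith [hf.l3]
      calc Real.log Y ^ 2 = (Real.log Y ^ 96) ^ (1 / 48 : ℝ) := by
            rw [← Real.rpow_natCast (Real.log (Y : ℝ)) 96, ← Real.rpow_mul hl,
              ← Real.rpow_natCast (Real.log (Y : ℝ)) 2]
            norm_num
        _ ≤ _ := Real.rpow_le_rpow (by positivity) hf.lh (by norm_num)
    calc 3 * (C1 * (((N ^ 2 : ℕ) : ℝ) ^ 4 * Y * Real.log Y ^ 2 * (h : ℝ) ^ (5 / 6 : ℝ))) *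
          (h : ℝ) ^ (1 / 48 : ℝ) =
          Y * ((3 * C1) * ((N ^ 2 : ℕ) : ℝ) ^ 4 * Real.log Y ^ 2 * (h : ℝ) ^ (5 / 6 : ℝ) *
          (h : ℝ) ^ (1 / 48 : ℝ)) := by ring
      _ ≤ Y * ((h : ℝ) ^ (1 / 24 : ℝ) * (h : ℝ) ^ (1 / 12 : ℝ) * (h : ℝ) ^ (1 / 48 : ℝ) *
          (h : ℝ) ^ (5 / 6 : ℝ) * (h : ℝ) ^ (1 / 48 : ℝ)) := by
          apply mul_le_mul_of_nonneg_left _ hY0.le
          apply mul_le_mul_of_nonneg_right _ hp.le
          apply mul_le_mul_of_nonneg_right _ (by positivity)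
          apply mul_le_mul _ q2 (by positivity) (by positivity)
          exact mul_le_mul hf.e5 q1 (by positivity) (by positivity)
      _ = Y * (h : ℝ) ^ (1 / 24 + 1 / 12 + 1 / 48 + 5 / 6 + 1 / 48 : ℝ) := by
          rw [Real.rpow_add hh0, Real.rpow_add hh0, Real.rpow_add hh0, Real.rpow_add hh0]
      _ = Y * h := by norm_num
  linarith

end

end Pool.Agent.Q122.EX
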