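import Pool.Agent.Q122.EX.WINX

set_option autoImplicit false

/-! Project EX: windows of one class, the theorem. -/

namespace Pool.Agent.Q122.EX

open Finset Filter Topology MeasureTheory Pool.Agent.H306R2.RZ Pool.Agent.H306R2.RG
open Pool.Agent.Q122.FM Pool.Agent.Q122.MB

noncomputable section

theorem ev_pow (C : ℝ) {a : ℝ} (ha : 0 < a) : ∀ᶠ Y : ℕ in atTop, C ≤ (Y : ℝ) ^ a := by
  have := evlog C 0 ha
  simpa using this

theorem ev_log (t : ℝ) : ∀ᶠ Y : ℕ in atTop, t ≤ Real.log Y :=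
  (Real.tendsto_log_atTop.comp tendsto_natCast_atTop_atTop).eventually_ge_atTop t

theorem floor_facts {x : ℝ} (hx : 2 ≤ x) :
    1 ≤ ⌊x⌋₊ ∧ ((⌊x⌋₊ : ℕ) : ℝ) ≤ x ∧ x / 2 ≤ ((⌊x⌋₊ : ℕ) : ℝ) := by
  have h1 : ((⌊x⌋₊ : ℕ) : ℝ) ≤ x := Nat.floor_le (by linarith)
  have h2 := Nat.lt_floor_add_one x
  refine ⟨?_, h1, by linarith⟩
  have : (0 : ℝ) < ((⌊x⌋₊ : ℕ) : ℝ) := by linarith
  exact_mod_cast this

theorem ev_h (C1 CG : ℝ) (N1 : ℕ) : ∀ᶠ h : ℕ in atTop, 1 ≤ h ∧ 1 ≤ ⌊(h : ℝ) ^ (1 / 96 : ℝ)⌋₊ ∧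
    N1 ≤ ⌊(h : ℝ) ^ (1 / 96 : ℝ)⌋₊ ∧
    ((⌊(h : ℝ) ^ (1 / 96 : ℝ)⌋₊ : ℕ) : ℝ) ≤ (h : ℝ) ^ (1 / 96 : ℝ) ∧
    3 * CG ≤ (h : ℝ) ^ (1 / 4 : ℝ) ∧ 3 * C1 ≤ (h : ℝ) ^ (1 / 24 : ℝ) ∧
    1 < Real.log ((⌊(h : ℝ) ^ (1 / 96 : ℝ)⌋₊ : ℕ) : ℝ) ∧
    Real.log h / 192 ≤ Real.log ((⌊(h : ℝ) ^ (1 / 96 : ℝ)⌋₊ : ℕ) : ℝ) := by
  filter_upwards [ev_pow 2 (show (0 : ℝ) < 1 / 96 by norm_num),
    ev_pow (N1 + 1) (show (0 : ℝ) < 1 / 96 by norm_num),
    ev_pow (3 * CG) (show (0 : ℝ) < 1 / 4 by norm_num),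
    ev_pow (3 * C1) (show (0 : ℝ) < 1 / 24 by norm_num),
    ev_log (192 * (Real.log 2 + 2)), eventually_ge_atTop 1] with h a1 a2 a3 a4 a5 a6
  obtain ⟨b1, b2, b3⟩ := floor_facts a1
  have hh0 : (0 : ℝ) < h := by exact_mod_cast a6
  have hN0 : (0 : ℝ) < ((⌊(h : ℝ) ^ (1 / 96 : ℝ)⌋₊ : ℕ) : ℝ) := by exact_mod_cast b1
  have l1 : Real.log h / 96 - Real.log 2 ≤
      Real.log ((⌊(h : ℝ) ^ (1 / 96 : ℝ)⌋₊ : ℕ) : ℝ) := by
    have := Real.log_le_log (by positivity) b3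
    rw [Real.log_div (by positivity) (by norm_num), Real.log_rpow hh0] at this
    linarith
  have hl2 : 0 < Real.log 2 := Real.log_pos (by norm_num)
  refine ⟨a6, b1, ?_, b2, a3, a4, by linarith, by linarith⟩
  apply Nat.le_floor
  linarith

theorem params (C1 CG c2 cG : ℝ) (hc : 0 < c2 * cG) (N1 : ℕ) : ∃ Y0 : ℕ, 3 ≤ Y0 ∧
    ∀ Y h : ℕ, Y0 ≤ Y →
    Real.log Y ^ 96 ≤ h → (h : ℝ) ≤ (Y : ℝ) ^ (1 / 16 : ℝ) →
    HF Y h ⌊(h : ℝ) ^ (1 / 96 : ℝ)⌋₊ ⌊(Y : ℝ) ^ (1 / 16 : ℝ)⌋₊ C1 CG c2 cG ∧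
      N1 ≤ ⌊(h : ℝ) ^ (1 / 96 : ℝ)⌋₊ := by
  obtain ⟨h0, hh0⟩ := eventually_atTop.1 (ev_h C1 CG N1)
  obtain ⟨Y0, hY0⟩ := eventually_atTop.1 ((ev_pow 2 (show (0 : ℝ) < 1 / 16 by norm_num)).and
    ((ev_pow C1 (show (0 : ℝ) < 1 / 4 by norm_num)).and
    ((ev_pow 3 (show (0 : ℝ) < 1 / 4 by norm_num)).and
    ((ev_log (max (max 3 (32 * Real.log 2)) (max (h0 : ℝ) (2 / (c2 * cG / 128))))).and
    (eventually_ge_atTop 3)))))
  refine ⟨max Y0 3, le_max_right _ _, ?_⟩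
  intro Y h hY hlo hhi
  obtain ⟨a1, a2, a3, a4, a5⟩ := hY0 Y ((le_max_left _ _).trans hY)
  have l3 : 3 ≤ Real.log Y := (le_max_left _ _).trans ((le_max_left _ _).trans a4)
  have l32 : 32 * Real.log 2 ≤ Real.log Y := (le_max_right _ _).trans ((le_max_left _ _).trans a4)
  have lh : (h0 : ℝ) ≤ Real.log Y := (le_max_left _ _).trans ((le_max_right _ _).trans a4)
  have le1 : 2 / (c2 * cG / 128) ≤ Real.log Y :=
    (le_max_right _ _).trans ((le_max_right _ _).trans a4)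
  have hh : h0 ≤ h := by
    have : (h0 : ℝ) ≤ h := by
      calc (h0 : ℝ) ≤ Real.log Y := lh
        _ = Real.log Y ^ 1 := (pow_one _).symm
        _ ≤ Real.log Y ^ 96 := pow_le_pow_right₀ (by linarith) (by norm_num)
        _ ≤ h := hlo
    exact_mod_cast this
  obtain ⟨b1, b2, b3, b4, b5, b6, b7, b8⟩ := hh0 h hh
  obtain ⟨m1, m2, m3⟩ := floor_facts a1
  have hY3 : (3 : ℝ) ≤ Y := by exact_mod_cast a5
  have hY0' : (0 : ℝ) < Y := by linarith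
  have hY1 : (1 : ℝ) ≤ Y := by linarith
  have hhY : h ≤ Y := by
    have : (h : ℝ) ≤ Y := by
      calc (h : ℝ) ≤ (Y : ℝ) ^ (1 / 16 : ℝ) := hhi
        _ ≤ (Y : ℝ) ^ (1 : ℝ) := Real.rpow_le_rpow_of_exponent_le hY1 (by norm_num)
        _ = Y := Real.rpow_one _
    exact_mod_cast this
  refine ⟨⟨a5, b1, hhY, b2, m1, b4, ?_, ?_, hhi, hlo, l3, ?_, a2, a3, b5, b6, b7, b8⟩, b3⟩
  · push_cast
    have e1 : (⌊(h : ℝ) ^ (1 / 96 : ℝ)⌋₊ : ℝ) * (⌊(Y : ℝ) ^ (1 / 16 : ℝ)⌋₊ : ℝ) ^ 2 ≤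
        (Y : ℝ) ^ (1 / 96 : ℝ) * ((Y : ℝ) ^ (1 / 16 : ℝ)) ^ 2 := by
      apply mul_le_mul _ _ (by positivity) (by positivity)
      · refine b4.trans ?_
        apply Real.rpow_le_rpow (by positivity) _ (by norm_num)
        exact_mod_cast hhY
      · exact pow_le_pow_left₀ (by positivity) m2 2
    calc ((⌊(h : ℝ) ^ (1 / 96 : ℝ)⌋₊ : ℝ) * (⌊(Y : ℝ) ^ (1 / 16 : ℝ)⌋₊ : ℝ) ^ 2) ^ 2 ≤
          ((Y : ℝ) ^ (1 / 96 : ℝ) * ((Y : ℝ) ^ (1 / 16 : ℝ)) ^ 2) ^ 2 :=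
          pow_le_pow_left₀ (by positivity) e1 2
      _ = (Y : ℝ) ^ ((1 / 96 + 1 / 16 * 2) * 2 : ℝ) := by
          rw [Real.rpow_mul hY0'.le, Real.rpow_add hY0', Real.rpow_mul hY0'.le]
          norm_num [Real.rpow_ofNat]
      _ ≤ (Y : ℝ) ^ (1 / 2 : ℝ) := Real.rpow_le_rpow_of_exponent_le hY1 (by norm_num)
  · have hM0 : (0 : ℝ) < ((⌊(Y : ℝ) ^ (1 / 16 : ℝ)⌋₊ : ℕ) : ℝ) := by exact_mod_cast m1
    have := Real.log_le_log (by positivity) m3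
    rw [Real.log_div (by positivity) (by norm_num), Real.log_rpow hY0'] at this
    linarith
  · rw [div_le_iff₀ (by positivity)] at le1
    linarith

theorem EBS_lower {c2 : ℝ} (ebx : ∀ e : ℤ, (e = 1 ∨ e = -1 ∨ e = 2 ∨ e = -2) → ∀ a : ℕ,
      (a = 0 ∨ a = 1) → ∀ (A : ℝ) (P K N0 M N d : ℕ) (z : ℝ), 0 ≤ A → A ^ 2 ≤ P → 2 ≤ P → 1 ≤ N0 →
      1 ≤ M → N0 * M ^ 2 ≤ N → Odd d → 0 < z → ((N0 * M ^ 2 : ℕ) : ℝ) ^ 2 * z ≤ 1 →
      c2 * PK 1 d * Real.log M * ∑ n ∈ (Icc 1 N0).filter (fun n => n.Coprime d),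
        qq (A ^ 2 + A) P K n ≤ EBS e a (b2 A P K N0) (N0 ^ 2) N d z)
    (hc2 : 0 < c2) (rkn : S_RKN) {c3 A : ℝ} {K N P : ℕ} (pr : PR c3 K N P A) (hN : 1 ≤ N)
    {ε : ℤ} (hε : ε = 1 ∨ ε = -1) {M N' h y : ℕ} (hM : 1 ≤ M) (hN' : N * M ^ 2 ≤ N')
    (hz : ((N * M ^ 2 : ℕ) : ℝ) ^ 2 ≤ 8 * ((y : ℝ) + 1)) :
    c2 / 2 * Real.log M * GLo (A ^ 2 + A) P K y h ≤
      ∑ d ∈ wi y h, EBS (2 * ε) (aS ε) (b2 A P K N) (N ^ 2) N' d (1 / (8 * ((y : ℝ) + 1))) := by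
  have hlM : 0 ≤ Real.log (M : ℝ) := Real.log_nonneg (by exact_mod_cast hM)
  have he' : (2 * ε = 1 ∨ 2 * ε = -1 ∨ 2 * ε = 2 ∨ 2 * ε = -2) := by
    rcases hε with rfl | rfl
    · right; right; left; rfl
    · right; right; right; rfl
  have ha : aS ε = 0 ∨ aS ε = 1 := by
    unfold aS; split_ifs <;> simp
  have hA0 := pr.A0
  unfold GLo
  rw [mul_sum]
  apply sum_le_sum
  intro d hd
  simp only [wi, mem_filter, mem_Ioc] at hd
  have hdo : Odd d := Nat.odd_iff.2 (by omega)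
  have h1 := ebx (2 * ε) he' (aS ε) ha A P K N M N' d (1 / (8 * ((y : ℝ) + 1))) hA0 pr.AP
    (by have := pr.P3; omega) hN hM hN' hdo (by positivity) (by
      rw [mul_one_div, div_le_one (by positivity)]
      exact hz)
  refine le_trans ?_ h1
  have h2 := rkn (A ^ 2 + A) P K N d (by positivity) (by have := pr.P3; omega) hN (by omega) pr.rk
  calc c2 / 2 * Real.log M * (PK 1 d * ∏ p ∈ (SP P K).filter (fun p => ¬ p ∣ d),
        (1 + (A ^ 2 + A) / (p : ℝ))) =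
        c2 * PK 1 d * Real.log M * (1 / 2 * ∏ p ∈ (SP P K).filter (fun p => ¬ p ∣ d),
        (1 + (A ^ 2 + A) / (p : ℝ))) := by ring
    _ ≤ _ := by
        apply mul_le_mul_of_nonneg_left h2
        have := PK_pos 1 d
        positivity

theorem t_WINX (s1g : S_S1G) (rsq : S_RSQ) (ebx : S_EBX) (rkn : S_RKN) (upx : S_UPX)
    (glx : S_GLX) (par : S_PAR) : S_WINX := by
  obtain ⟨C1, hC1, s1g⟩ := s1g
  obtain ⟨c2, hc2, ebx⟩ := ebx
  obtain ⟨cG, CG, hcG, hCG, glx⟩ := glx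
  obtain ⟨c3, K, N1, hc3, hN13, par⟩ := par
  obtain ⟨gM, hgM0, hgM⟩ := gm_ex
  obtain ⟨Y0, hY03, hY0⟩ := params C1 CG c2 cG (by positivity) N1
  set c : ℝ := min (c2 * cG / (576 * gM) / 2) (c3 / 14) with hc
  have hc0 : 0 < c := lt_min (by positivity) (by positivity)
  have hca : c ≤ c2 * cG / (576 * gM) / 2 := min_le_left _ _
  have hcb : c ≤ c3 / 14 := min_le_right _ _
  refine ⟨c, 1 / 48, 96, Y0, hc0, by norm_num, hY03, ?_⟩
  intro ε hε Y h hY hlo hhi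
  obtain ⟨hf, hN1⟩ := hY0 Y h hY hlo hhi
  set N := ⌊(h : ℝ) ^ (1 / 96 : ℝ)⌋₊ with hN
  set M := ⌊(Y : ℝ) ^ (1 / 16 : ℝ)⌋₊ with hM
  obtain ⟨P, A, pr⟩ := par N hN1
  obtain ⟨r1, r2, r3⟩ := rsq A P K N pr.A0 pr.AP (by have := pr.P3; omega) hf.N1
  have he' : (2 * ε = 1 ∨ 2 * ε = -1 ∨ 2 * ε = 2 ∨ 2 * ε = -2) := by
    rcases hε with rfl | rfl
    · right; right; left; rfl
    · right; right; right; rfl
  obtain ⟨g00, g0M⟩ := hgM ε hε
  set g0 := gm (1 / 2 + ((aS ε : ℕ) : ℝ)) with hg0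
  have hh0 : (0 : ℝ) < h := by exact_mod_cast hf.h1
  have hh1 : (1 : ℝ) ≤ h := by exact_mod_cast hf.h1
  have hA0 := pr.A0
  have hY3' : (3 : ℝ) ≤ Y := by exact_mod_cast hf.Y3
  have hYp : (0 : ℝ) < Y := by linarith
  -- the good set
  set S := (range Y).filter (fun y => Y < (y + 1) ^ 2) with hS
  have hSy : ∀ y ∈ S, ((N * M ^ 2 : ℕ) : ℝ) ^ 2 ≤ 8 * ((y : ℝ) + 1) := by
    intro y hy
    rw [hS, mem_filter] at hy
    have hysq : (Y : ℝ) < ((y : ℝ) + 1) ^ 2 := by exact_mod_cast hy.2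
    have hyhalf : (Y : ℝ) ^ (1 / 2 : ℝ) ≤ (y : ℝ) + 1 := by
      calc (Y : ℝ) ^ (1 / 2 : ℝ) ≤ (((y : ℝ) + 1) ^ 2) ^ (1 / 2 : ℝ) :=
            Real.rpow_le_rpow hYp.le hysq.le (by norm_num)
        _ = (y : ℝ) + 1 := by
            rw [← Real.rpow_natCast, ← Real.rpow_mul (by positivity)]
            norm_num
    have h1 := hf.NM
    have h2 : (0 : ℝ) ≤ y := by positivity
    linarith
  have hBY : N ^ 2 ≤ Y := by
    have h1 := B_le hf.Nh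
    have h2 : (h : ℝ) ^ (1 / 48 : ℝ) ≤ Y := by
      calc (h : ℝ) ^ (1 / 48 : ℝ) ≤ (h : ℝ) ^ (1 : ℝ) :=
            Real.rpow_le_rpow_of_exponent_le hh1 (by norm_num)
        _ = h := Real.rpow_one _
        _ ≤ Y := by exact_mod_cast hf.hY
    exact_mod_cast h1.trans h2
  have hsum := s1g ε hε (b2 A P K N) r2 (N ^ 2) (Nat.one_le_pow _ _ hf.N1) r3 Y h (N * M ^ 2)
    hf.Y3 hf.h1 hf.hY hBY S (fun y => c2 / 2 * Real.log M * GLo (A ^ 2 + A) P K y h)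
    (filter_subset _ _) (fun N' hN' y hy => EBS_lower ebx hc2 rkn pr hf.N1 hε hf.M1 hN'
      (hSy y hy))
  have hsum' : ∑ y ∈ S, XX ε C1 g0 (c2 / 2 * Real.log M * GLo (A ^ 2 + A) P K y h)
      (b2 A P K N) (N ^ 2) h y ≤
      C1 * (((N ^ 2 : ℕ) : ℝ) ^ 4 * Y * Real.log Y ^ 2 * (h : ℝ) ^ (5 / 6 : ℝ)) := hsum
  have hglx := glx Y h P K (A ^ 2 + A) hf.h1 hf.hY (by have := pr.P3; omega) (by positivity)
    pr.bP (pr.gl.trans (by
      have hN0 : (0 : ℝ) < N := by exact_mod_cast hf.N1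
      apply Real.log_le_log hN0
      calc (N : ℝ) ≤ (h : ℝ) ^ (1 / 96 : ℝ) := hf.Nh
        _ ≤ (h : ℝ) ^ (1 : ℝ) := Real.rpow_le_rpow_of_exponent_le hh1 (by norm_num)
        _ = h := Real.rpow_one _)) (by
      have l3 := hf.l3
      have l2 : Real.log (2 * (Y : ℝ)) = Real.log 2 + Real.log Y :=
        Real.log_mul (by norm_num) hYp.ne'
      have f2 := Real.log_two_lt_d9
      have hl2 : 0 < Real.log 2 := Real.log_pos (by norm_num)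
      refine le_trans ?_ hf.lh
      calc (1 + Real.log (2 * (Y : ℝ))) ^ 3 ≤ (Real.log Y ^ 2) ^ 3 := by
            apply pow_le_pow_left₀ (by rw [l2]; linarith)
            rw [l2]
            nlinarith
        _ = Real.log Y ^ 6 := by ring
        _ ≤ Real.log Y ^ 96 := pow_le_pow_right₀ (by linarith) (by norm_num))
  -- inclusion
  set V : ℝ := c * Real.log Y * Real.exp (c * Real.sqrt (Real.log h / Real.log (Real.log h)))
    with hV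
  have hlY : 0 < Real.log (Y : ℝ) := by linarith [hf.l3]
  have hV0 : 0 < V := by positivity
  have hsub : (range Y).filter (fun y => ∀ d ∈ wi y h, LLg (F8 ε) d (1 / 2) < V) ⊆
      ((range Y).filter (fun y => (y + 1) ^ 2 ≤ Y) ∪
      (range Y).filter (fun y => GLo (A ^ 2 + A) P K y h <
        cG * h * ∏ p ∈ SP P K, (1 + (A ^ 2 + A) / (p : ℝ)))) ∪
      S.filter (fun y => (h : ℝ) < XX ε C1 g0 (c2 / 2 * Real.log M * GLo (A ^ 2 + A) P K y h)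
        (b2 A P K N) (N ^ 2) h y) := by
    intro y hy
    rw [mem_filter] at hy
    by_cases c1' : (y + 1) ^ 2 ≤ Y
    · rw [mem_union, mem_union]
      exact Or.inl (Or.inl (mem_filter.2 ⟨hy.1, c1'⟩))
    by_cases c2' : GLo (A ^ 2 + A) P K y h <
        cG * h * ∏ p ∈ SP P K, (1 + (A ^ 2 + A) / (p : ℝ))
    · rw [mem_union, mem_union]
      exact Or.inl (Or.inr (mem_filter.2 ⟨hy.1, c2'⟩))
    have hn1' : Y < (y + 1) ^ 2 := not_le.1 c1'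
    have hyS : y ∈ S := mem_filter.2 ⟨hy.1, hn1'⟩
    by_cases c3' : (h : ℝ) < XX ε C1 g0 (c2 / 2 * Real.log M * GLo (A ^ 2 + A) P K y h)
        (b2 A P K N) (N ^ 2) h y
    · rw [mem_union]
      exact Or.inr (mem_filter.2 ⟨hyS, c3'⟩)
    · exfalso
      have hysq : (Y : ℝ) < ((y : ℝ) + 1) ^ 2 := by exact_mod_cast hn1'
      have hk := good hC1 hc2 hcG hc3 g00 g0M hf pr (ε := ε)
        (fun y h => upx (2 * ε) he' 1 (by norm_num) (by decide) A P K N y h pr.A0 pr.AP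
          (by have := pr.P3; omega) hf.N1) (fun d => r1 (2 * ε) d) hysq (not_lt.1 c2')
        (not_lt.1 c3') hV0.le hy.2
      -- contradiction
      have k1 : Real.exp (c * Real.sqrt (Real.log h / Real.log (Real.log h))) ≤
          Real.exp (c3 / 14 * Real.sqrt (Real.log h / Real.log (Real.log h))) := by
        apply Real.exp_le_exp.2
        exact mul_le_mul_of_nonneg_right hcb (Real.sqrt_nonneg _)
      have k2 : V < c2 * cG / (576 * gM) * Real.log Y *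
          Real.exp (c3 / 14 * Real.sqrt (Real.log h / Real.log (Real.log h))) := by
        have hq : 0 < c2 * cG / (576 * gM) := by positivity
        calc V ≤ c2 * cG / (576 * gM) / 2 * Real.log Y *
              Real.exp (c3 / 14 * Real.sqrt (Real.log h / Real.log (Real.log h))) := by
              rw [hV]
              apply mul_le_mul _ k1 (by positivity) (by positivity)
              exact mul_le_mul_of_nonneg_right hca hlY.le
          _ < _ := by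
              apply mul_lt_mul_of_pos_right _ (Real.exp_pos _)
              apply mul_lt_mul_of_pos_right _ hlY
              linarith
      linarith
  have hcard1 := card_le_card hsub
  have hcard2 := card_union_le ((range Y).filter (fun y => (y + 1) ^ 2 ≤ Y) ∪
      (range Y).filter (fun y => GLo (A ^ 2 + A) P K y h <
        cG * h * ∏ p ∈ SP P K, (1 + (A ^ 2 + A) / (p : ℝ))))
      (S.filter (fun y => (h : ℝ) < XX ε C1 g0 (c2 / 2 * Real.log M * GLo (A ^ 2 + A) P K y h)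
        (b2 A P K N) (N ^ 2) h y))
  have hcard3 := card_union_le ((range Y).filter (fun y => (y + 1) ^ 2 ≤ Y))
      ((range Y).filter (fun y => GLo (A ^ 2 + A) P K y h <
        cG * h * ∏ p ∈ SP P K, (1 + (A ^ 2 + A) / (p : ℝ))))
  have hG0 := hcard1.trans (hcard2.trans (Nat.add_le_add_right hcard3 _))
  have hG1 := (Nat.cast_le (α := ℝ)).2 hG0
  rw [Nat.cast_add, Nat.cast_add] at hG1
  refine hG1.trans (total hC1 hCG hf (cardA Y) hglx ?_)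
  exact card_markov _ (fun y => XX ε C1 g0 (c2 / 2 * Real.log M * GLo (A ^ 2 + A) P K y h)
    (b2 A P K N) (N ^ 2) h y) (fun y _ => le_max_left _ _) h hh0 _
    hsum' (fun y => (h : ℝ) < XX ε C1 g0 (c2 / 2 * Real.log M * GLo (A ^ 2 + A) P K y h)
        (b2 A P K N) (N ^ 2) h y) (fun y _ hy => hy.le)

end

end Pool.Agent.Q122.EX
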